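import Pool.Agent.Lib.MP_570bef_ntF.Fin2

/-!
# Waring's problem with `2k+1` `k`-th powers over `K[t]`, `K` a large finite field
-/

set_option autoImplicit false

namespace Pool.Agent.Results.MP_570bef_nt.FunctionFieldModel

open Polynomial

/-- For every `k ≥ 2` there are `q₀` and `n₀` such that for every finite field `K` with more than `q₀`
elements and of characteristic greater than `k`, every polynomial over `K` of degree at most `k n`, where
`n ≥ n₀`, is a sum of `2 k + 1` `k`-th powers of polynomials of degree at most `n`. -/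
theorem result : ∀ k : ℕ, 2 ≤ k → ∃ q₀ n₀ : ℕ, ∀ (K : Type) [Field K] [Fintype K],
    k < ringChar K → q₀ ≤ Fintype.card K → ∀ n : ℕ, n₀ ≤ n → ∀ F : K[X], F.natDegree ≤ k * n →
      ∃ x : Fin (2 * k + 1) → K[X], (∀ i, (x i).natDegree ≤ n) ∧ F = ∑ i, x i ^ k := by
  intro k hk
  refine ⟨MP_570bef_ntF.Q0 k, 4 * MP_570bef_ntF.E3 k + 3, ?_⟩
  intro K _ _ hchar hq n hn F hF
  have hc : ∀ j : ℕ, 1 ≤ j → j ≤ k → (j : K) ≠ 0 := by
    intro j hj1 hjk h0
    have hdvd : ringChar K ∣ j := (ringChar.spec K j).mp h0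
    have := Nat.le_of_dvd (by omega) hdvd
    omega
  obtain ⟨x, hx, hs⟩ := MP_570bef_ntF.waring_ff k hk K hc hq n hn F hF
  exact ⟨x, hx, hs.symm⟩

end Pool.Agent.Results.MP_570bef_nt.FunctionFieldModel
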