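import Mathlib
import Pool.Agent.Lib.MP_570bef_ntWE.Fin1

/-!
# The linear bound in Waring's problem for all shifts outside a set of dimension `10 ^ (-8)`
-/

set_option autoImplicit false

namespace Pool.Agent.Results.MP_570bef_nt.LinearBoundShifts

/-- Every sufficiently large natural number is the integer part of a sum of `s` powers `(z i + β) ^ k`,
`z i` integers with `z i + β ≥ 0`. For `β = 0` this is `G(k) ≤ s`. -/
def LargeAreSums (k : ℕ) (β : ℝ) (s : ℕ) : Prop :=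
  ∃ N₀ : ℕ, ∀ N : ℕ, N₀ ≤ N → ∃ z : Fin s → ℤ, (∀ i, 0 ≤ (z i : ℝ) + β) ∧
    N = ⌊∑ i, ((z i : ℝ) + β) ^ k⌋₊

/-- The distance from a real number `τ` to the nearest sum of `s` such powers tends to zero as
`τ → ∞`: for every `δ > 0` every `τ ≥ τ₀(δ)` is at distance less than `δ` from one. -/
def GapsTendToZero (k : ℕ) (β : ℝ) (s : ℕ) : Prop :=
  ∀ δ : ℝ, 0 < δ → ∃ τ₀ : ℝ, ∀ τ : ℝ, τ₀ ≤ τ → ∃ z : Fin s → ℤ, (∀ i, 0 ≤ (z i : ℝ) + β) ∧
    |∑ i, ((z i : ℝ) + β) ^ k - τ| < δ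

/-- Both properties hold. -/
def Represents (k : ℕ) (β : ℝ) (s : ℕ) : Prop := LargeAreSums k β s ∧ GapsTendToZero k β s

/-- (1) For all shifts `β` outside one set of Hausdorff dimension at most `10 ^ (-8)`, `100 k` (or
more) powers suffice for all large `k`. (2) The same with `c k` powers and dimension at most
`6 q / 2 ^ q`, if `c > 4 q log 2`. (3) For all `β` outside a set of dimension zero `O(k)` powers
suffice. -/
theorem result :
    (∃ k₀ : ℕ, dimH {β : ℝ | ∃ k ≥ k₀, ∃ s ≥ 100 * k, ¬ Represents k β s} ≤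
      ENNReal.ofReal (1 / 10 ^ 8)) ∧
    (∀ (q : ℕ) (c : ℝ), 5 ≤ q → 4 * q * Real.log 2 < c →
      ∃ k₀ : ℕ, dimH {β : ℝ | ∃ k ≥ k₀, ∃ s : ℕ, c * k ≤ s ∧ ¬ Represents k β s} ≤
        ENNReal.ofReal (6 * q / 2 ^ q)) ∧
    dimH {β : ℝ | ¬ ∃ C k₀ : ℕ, ∀ k ≥ k₀, ∀ s ≥ C * k, Represents k β s} = 0 := by
  have key : ∀ (k : ℕ) (β : ℝ) (s : ℕ), Pool.Agent.Lib.MP_570bef_ntWD.Suff k β s →
      Represents k β s := by
    intro k β s h
    refine ⟨?_, h⟩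
    obtain ⟨τ₀, hτ₀⟩ := h (1 / 2) (by norm_num)
    refine ⟨⌈τ₀⌉₊, fun N hN => ?_⟩
    have h1 : τ₀ ≤ N := (Nat.le_ceil τ₀).trans (by exact_mod_cast hN)
    obtain ⟨z, hz, hs⟩ := hτ₀ (N + 1 / 2) (by linarith)
    refine ⟨z, hz, ?_⟩
    rw [abs_lt] at hs
    symm
    rw [Nat.floor_eq_iff (by linarith [hs.1, (Nat.cast_nonneg N : (0 : ℝ) ≤ N)])]
    exact ⟨by linarith [hs.1], by linarith [hs.2]⟩
  refine ⟨?_, ?_, ?_⟩
  · obtain ⟨k₀, h⟩ := Pool.Agent.Lib.MP_570bef_ntWE.main_hundred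
    refine ⟨k₀, (dimH_mono ?_).trans h⟩
    rintro β ⟨k, hk, s, hs, hn⟩
    exact ⟨k, hk, s, hs, fun h => hn (key _ _ _ h)⟩
  · intro q c hq hc
    obtain ⟨p, rfl⟩ : ∃ p : ℕ, q = p + 4 := ⟨q - 4, by omega⟩
    have hc' : 4 * (((p : ℝ) + 4) * Real.log 2) < c := by
      push_cast at hc
      linarith
    obtain ⟨k₀, h⟩ := Pool.Agent.Lib.MP_570bef_ntWE.main_one p (by omega) c hc'
    refine ⟨k₀, (dimH_mono ?_).trans (h.trans (le_of_eq ?_))⟩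
    · rintro β ⟨k, hk, s, hs, hn⟩
      exact ⟨k, hk, s, hs, fun h => hn (key _ _ _ h)⟩
    · push_cast
      rfl
  · refine le_antisymm ((dimH_mono ?_).trans Pool.Agent.Lib.MP_570bef_ntWE.main_two.le) bot_le
    intro β hβ h
    obtain ⟨C, k₀, h⟩ := h
    exact hβ ⟨C, k₀, fun k hk s hs => key _ _ _ (h k hk s hs)⟩

end Pool.Agent.Results.MP_570bef_nt.LinearBoundShifts
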