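import Pool.Agent.Lib.MP_570bef_ntXD.FNb
import Pool.Agent.Lib.MP_570bef_ntXD.ASc

/-!
# Waring's problem with real exponents: the linear bound outside a set of exponents of small dimension
-/

set_option autoImplicit false

namespace Pool.Agent.Results.MP_570bef_nt.MetricExponents

/-- Every sufficiently large natural number is a sum of `s` numbers `⌊n ^ θ⌋`, `n` a natural number. -/
def LargeAreSums (θ : ℝ) (s : ℕ) : Prop :=
  ∃ N₀ : ℕ, ∀ N : ℕ, N₀ ≤ N → ∃ n : Fin s → ℕ, N = ∑ i, ⌊(n i : ℝ) ^ θ⌋₊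

/-- (1) For `0 < δ ≤ 1` the set of the real exponents `θ > 1` for which the large natural numbers are not all
sums of `4 ⌊θ log (2 / δ)⌋ + 6` numbers `⌊n ^ θ⌋` has, in every compact subinterval of `(1, ∞)`, Hausdorff
dimension less than `δ`. (2) For every real `C` the set of the `θ > 1` for which `⌊C θ⌋` such numbers do not
suffice has Hausdorff dimension at most `2 exp ((6 - C) / 4)`. (3) For `C = 100` it is less than `10 ^ (-9)`. -/
theorem result :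
    (∀ δ : ℝ, 0 < δ → δ ≤ 1 → ∀ a b : ℝ, 1 < a →
      dimH {θ : ℝ | a ≤ θ ∧ θ ≤ b ∧ ¬ LargeAreSums θ (4 * ⌊θ * Real.log (2 / δ)⌋₊ + 6)} <
        ENNReal.ofReal δ) ∧
    (∀ C : ℝ, dimH {θ : ℝ | 1 < θ ∧ ¬ LargeAreSums θ ⌊C * θ⌋₊} ≤
      ENNReal.ofReal (2 * Real.exp ((6 - C) / 4))) ∧
    dimH {θ : ℝ | 1 < θ ∧ ¬ LargeAreSums θ ⌊100 * θ⌋₊} < ENNReal.ofReal (1 / 10 ^ 9) := by
  have key : ∀ (θ : ℝ) (s : ℕ), Pool.Agent.Lib.MP_570bef_ntM.WF θ s → LargeAreSums θ s := by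
    intro θ s h
    obtain ⟨N₀, hN₀⟩ := Filter.eventually_atTop.1 h
    refine ⟨N₀, fun N hN => ?_⟩
    obtain ⟨n, hn⟩ := hN₀ N hN
    exact ⟨n, hn.symm⟩
  have h2 : ∀ C : ℝ, dimH {θ : ℝ | 1 < θ ∧ ¬ LargeAreSums θ ⌊C * θ⌋₊} ≤
      ENNReal.ofReal (2 * Real.exp ((6 - C) / 4)) := by
    intro C
    refine (dimH_mono ?_).trans
      (Pool.Agent.Lib.MP_570bef_ntXD.dim_C Pool.Agent.Lib.MP_570bef_ntXD.smd C)
    rintro θ ⟨h1, h2⟩
    exact ⟨h1, fun h => h2 (key _ _ h)⟩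
  refine ⟨?_, h2, (h2 100).trans_lt ?_⟩
  · intro δ h0 h1 a b ha
    refine (dimH_mono ?_).trans_lt (Pool.Agent.Lib.MP_570bef_ntXD.compact_D
      Pool.Agent.Lib.MP_570bef_ntXD.smd h0 h1 a b ha)
    rintro θ ⟨h2, h3, h4⟩
    exact ⟨⟨h2, h3⟩, fun h => h4 (key _ _ h)⟩
  · exact (ENNReal.ofReal_lt_ofReal_iff (by positivity)).2 Pool.Agent.Lib.MP_570bef_ntXD.exp_num

end Pool.Agent.Results.MP_570bef_nt.MetricExponents
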