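import Mathlib
import Pool.Agent.Lib.MP_570bef_ntW.ZeroN

/-!
# Waring's problem for almost all polynomials
-/

set_option autoImplicit false

open Polynomial

namespace Pool.Agent.Results.MP_570bef_nt.PerturbedPowers

/-- Every sufficiently large natural number is a sum of `s` integers `⌊f n⌋` with natural numbers
`n` such that `f n ≥ 0`. For `f x = x ^ k` this is `G(k) ≤ s`. -/
def FloorsSuffice (f : ℝ → ℝ) (s : ℕ) : Prop :=
  ∃ N₀ : ℕ, ∀ N : ℕ, N₀ ≤ N → ∃ n : Fin s → ℕ, (∀ i, 0 ≤ f (n i)) ∧ N = ∑ i, ⌊f (n i)⌋₊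

/-- The number of terms, at most `4 k log (2 / δ) + 2 k log (k / j) + 6`. -/
noncomputable def terms (k j : ℕ) (δ : ℝ) : ℕ :=
  2 * ⌊(k : ℝ) * Real.log (2 * k / (j * δ))⌋₊ + 2 * ⌊(k : ℝ) * Real.log (2 / δ)⌋₊ + 6

/-- (i) For every real polynomial `g` of degree `k` with positive leading coefficient,
`1 ≤ j < k` and `0 < δ ≤ 1`, the set of the real numbers `θ` for which not every large natural
number is a sum of `terms k j δ` numbers `⌊g n + θ n ^ j⌋` has dimension less than `δ`.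
(ii) With `terms k j 1` numbers this set has measure zero.
(iii) For every countable set of real polynomials there is one set of dimension zero such that for
every `θ` outside it there is `C` such that for every `g` in the set, `k` and `j` as in (i), every
large natural number is a sum of `⌊C k (1 + log (k / j))⌋` numbers `⌊g n + θ n ^ j⌋`. -/
theorem result :
    (∀ (g : ℝ[X]) (k j : ℕ) (δ : ℝ), g.natDegree = k → 0 < g.leadingCoeff → 1 ≤ j → j < k →
      0 < δ → δ ≤ 1 →
        dimH {θ : ℝ | ¬ FloorsSuffice (fun x => g.eval x + θ * x ^ j) (terms k j δ)} <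
          ENNReal.ofReal δ) ∧
    (∀ (g : ℝ[X]) (k : ℕ), g.natDegree = k → 0 < g.leadingCoeff →
      ∀ᵐ θ : ℝ, ∀ j : ℕ, 1 ≤ j → j < k →
        FloorsSuffice (fun x => g.eval x + θ * x ^ j) (terms k j 1)) ∧
    ∀ G : Set ℝ[X], G.Countable → ∃ Z : Set ℝ, dimH Z = 0 ∧ ∀ θ : ℝ, θ ∉ Z → ∃ C : ℝ,
      ∀ g ∈ G, ∀ k j : ℕ, g.natDegree = k → 0 < g.leadingCoeff → 1 ≤ j → j < k →
        FloorsSuffice (fun x => g.eval x + θ * x ^ j) ⌊C * (k * (1 + Real.log (k / j)))⌋₊ :=
  ⟨fun g k j δ hg hL hj hjk hδ hδ1 =>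
      Pool.Agent.Lib.MP_570bef_ntW.all_n g k j (by omega) hj hjk hg hL δ hδ hδ1,
    fun g k hg hL => Pool.Agent.Lib.MP_570bef_ntW.all_ae_n g k hg hL,
    fun G hG => Pool.Agent.Lib.MP_570bef_ntW.zero_n G hG⟩

end Pool.Agent.Results.MP_570bef_nt.PerturbedPowers
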